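import Pool.Agent.Helper96.BT.Defs
import Pool.Agent.Helper89.NQ.Rec

/-!
# BT, R1: the recursion
-/

set_option autoImplicit false

namespace Pool.Agent.Helper6.BT

open Finset Pool.Agent.Helper19.NF Pool.Agent.Helper74.NW Pool.Agent.Helper96.BT
open Pool.Agent.Helper74.NE (fine fine_apply)
open Pool.Agent.Helper99.NQ (pos)
open Pool.Agent.Helper96.PH (Det CB opn)
open Pool.Agent.Helper74.NS (Expands)

section lists

variable {C X Z : Type} {S : ℕ} {P : NProg C X Z S} {I : C → X}

/-- A list of pieces is cut into two. -/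
theorem runL_split {L1 L2 : List (Fin S × ℕ × Fin S)} {c : List C} (h : RunL P I (L1 ++ L2) c) :
    ∃ c1 c2, c = c1 ++ c2 ∧ RunL P I L1 c1 ∧ RunL P I L2 c2 := by
  induction L1 generalizing c with
  | nil => exact ⟨[], c, rfl, RunL.nil, h⟩
  | cons p L1 ih =>
    rw [List.cons_append] at h
    cases h with
    | cons s t k L c0 c' h1 h2 h3 =>
      obtain ⟨c1, c2, h4, h5, h6⟩ := ih h3
      exact ⟨c0 ++ c1, c2, by rw [h4, List.append_assoc], RunL.cons s t k L1 c0 c1 h1 h2 h5, h6⟩

theorem free_left [Fintype C] (c c' : List C) : free (c ++ c') ⊆ free c := by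
  classical
  intro z hz
  simp only [free, mem_filter, mem_univ, true_and, List.mem_append, not_or] at hz ⊢
  exact hz.1

theorem free_right [Fintype C] (c c' : List C) : free (c ++ c') ⊆ free c' := by
  classical
  intro z hz
  simp only [free, mem_filter, mem_univ, true_and, List.mem_append, not_or] at hz ⊢
  exact hz.2

end lists

section gaps

variable {B W : Type} [Fintype B] [Fintype W]

/-- A list with `k` queries leaves at least all but `k` of the symbols of a block. -/
theorem card_le_gap (c : List (B × W)) (b : B) : Fintype.card W ≤ gap (free c) b + c.length := by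
  classical
  have h1 : ((univ : Finset W).filter (fun l => ¬ (b, l) ∈ free c)).card ≤ c.length := by
    calc ((univ : Finset W).filter (fun l => ¬ (b, l) ∈ free c)).card
        = (((univ : Finset W).filter (fun l => ¬ (b, l) ∈ free c)).image (fun l => (b, l))).card :=
          (card_image_of_injective _ fun l l' e => (Prod.ext_iff.1 e).2).symm
      _ ≤ c.toFinset.card := by
          refine card_le_card fun z hz => ?_
          obtain ⟨l, hl, rfl⟩ := mem_image.1 hz
          have h2 := (mem_filter.1 hl).2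
          simp only [free, mem_filter, mem_univ, true_and, not_not] at h2
          exact List.mem_toFinset.2 h2
      _ ≤ c.length := List.toFinset_card_le c
  have h2 := card_filter_add_card_filter_not (s := (univ : Finset W)) (fun l => (b, l) ∈ free c)
  rw [card_univ] at h2
  have h3 : gap (free c) b = ((univ : Finset W).filter (fun l => (b, l) ∈ free c)).card := by
    unfold gap
    congr!
  omega

end gaps

variable {n D m S : ℕ} [NeZero m] {F B W Z : Type} [Field F] [Fintype F] [AddCommGroup B] [AddCommGroup W]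
  [Module F W] [Fintype W] [Fintype B] (enc : W →+ (Fin D × Fin m → B))

/-- If `comp` has at least `a` nodes, then at least `4 a` nodes of the row are full. -/
theorem full_of_comp (g : Fin D → Equiv.Perm (Fin n)) (x0 : Fin n × Fin m → B) (h e a i : ℕ) (hX : Expands g a)
    (I : B × W → F) (V : Finset (B × W)) (h4 : a ≤ (comp enc g x0 h e i I V).card) :
    4 * a ≤ (full enc g x0 h e i I V).card := by
  classical
  refine (hX _ h4).trans (card_le_card ?_)
  intro v hv
  obtain ⟨s, u, hu, rfl⟩ := (mem_filter.1 hv).2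
  exact (mem_filter.1 hu).2 s

/-- A list with at most one query leaves no node full. -/
theorem short (g : Fin D → Equiv.Perm (Fin n)) (x0 : Fin n × Fin m → B) (h e a i : ℕ) (hX : Expands g a) (ha : 1 ≤ a)
    (hL : h + 1 ≤ Fintype.card W) (he : e < m) (I : B × W → F) {c : List (B × W)} (hc : c.length ≤ 1)
    (hcomp : a ≤ (comp enc g x0 h e i I (free c)).card) : False := by
  classical
  have h1 := full_of_comp enc g x0 h e a i hX I _ hcomp
  have h2 : 0 < (full enc g x0 h e i I (free c)).card := by omega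
  obtain ⟨u, hu⟩ := card_pos.1 h2
  have h3 := (mem_filter.1 hu).2
  have h4 : (univ.filter (fun t => h ≤ gap (free c) (val (fine g) x0 (tab enc I) i (u, t)))) =
      (univ : Finset (Fin m)) := by
    refine filter_true_of_mem fun t _ => ?_
    have h5 := card_le_gap c (val (fine g) x0 (tab enc I) i (u, t))
    omega
  rw [h4, card_univ, Fintype.card_fin] at h3
  omega

/-- One step of the recursion. -/
theorem step (P : NProg (B × W) F Z S) (g : Fin D → Equiv.Perm (Fin n)) (x0 : Fin n × Fin m → B)
    (h e T a R : ℕ) (hX : Expands g a) (ha : 1 ≤ a) {I : B × W → F} (hcf : CF (fine g) x0 R (tab enc I))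
    {L1 L2 : List (Fin S × ℕ × Fin S)} {c1 c2 : List (B × W)} (hc1 : RunL P I L1 c1) (hc2 : RunL P I L2 c2)
    (hT : Fintype.card (B × W) ≤ (free (c1 ++ c2)).card + T)
    (hcomp : a ≤ (comp enc g x0 h e (R + 1) I (free (c1 ++ c2))).card)
    (hA : ¬ a ≤ (comp enc g x0 h e R I (free c1)).card) (hB : ¬ a ≤ (comp enc g x0 h e R I (free c2)).card) :
    ∃ A s1 s2, A.card = a ∧ InD P enc g x0 h e T R L1 L2 A s1 s2 I := by
  classical
  have hfull := full_of_comp enc g x0 h e a (R + 1) hX I _ hcomp
  have hJc : a ≤ (full enc g x0 h e (R + 1) I (free (c1 ++ c2)) \ (comp enc g x0 h e R I (free c1) ∪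
      comp enc g x0 h e R I (free c2))).card := by
    have h2 := card_union_le (comp enc g x0 h e R I (free c1)) (comp enc g x0 h e R I (free c2))
    have h3 := le_card_sdiff (comp enc g x0 h e R I (free c1) ∪ comp enc g x0 h e R I (free c2))
      (full enc g x0 h e (R + 1) I (free (c1 ++ c2)))
    omega
  obtain ⟨A, hAs, hAc⟩ := exists_subset_card_eq hJc
  have hw : ∀ c' : List (B × W), ∀ u, u ∉ comp enc g x0 h e R I (free c') →
      ∃ s : Fin D, g s u ∉ full enc g x0 h e R I (free c') := by
    intro c' u hu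
    by_contra h2
    push Not at h2
    exact hu (mem_filter.2 ⟨mem_univ _, h2⟩)
  have hn1 : ∀ u ∈ A, u ∉ comp enc g x0 h e R I (free c1) := fun u hu h2 =>
    (mem_sdiff.1 (hAs hu)).2 (mem_union_left _ h2)
  have hn2 : ∀ u ∈ A, u ∉ comp enc g x0 h e R I (free c2) := fun u hu h2 =>
    (mem_sdiff.1 (hAs hu)).2 (mem_union_right _ h2)
  obtain ⟨u0, hu0⟩ := card_pos.1 (lt_of_lt_of_le (Nat.succ_le_iff.1 ha) hAc.ge)
  obtain ⟨s0, -⟩ := hw _ u0 (hn1 u0 hu0)
  have hw' : ∀ c' : List (B × W), ∃ f : Fin n → Fin D, ∀ u, u ∉ comp enc g x0 h e R I (free c') →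
      g (f u) u ∉ full enc g x0 h e R I (free c') := by
    intro c'
    have h2 : ∀ u, ∃ s : Fin D, u ∉ comp enc g x0 h e R I (free c') → g s u ∉ full enc g x0 h e R I (free c') := by
      intro u
      by_cases hu : u ∈ comp enc g x0 h e R I (free c')
      · exact ⟨s0, fun h3 => absurd hu h3⟩
      · obtain ⟨s, hs⟩ := hw c' u hu
        exact ⟨s, fun _ => hs⟩
    choose f hf using h2
    exact ⟨f, fun u hu => hf u hu⟩
  obtain ⟨f1, hf1⟩ := hw' c1
  obtain ⟨f2, hf2⟩ := hw' c2
  exact ⟨A, f1, f2, hAc, hcf, c1, c2, hc1, hc2, hT, fun u hu => (mem_sdiff.1 (hAs hu)).1,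
    fun u hu => hf1 u (hn1 u hu), fun u hu => hf2 u (hn2 u hu)⟩

/-- The recursion, with fixed bounds for the types. -/
theorem exists_inD' (P : NProg (B × W) F Z S) (g : Fin D → Equiv.Perm (Fin n)) (x0 : Fin n × Fin m → B)
    (h e T a q d0 : ℕ) (hX : Expands g a) (ha : 1 ≤ a) (hL : h + 1 ≤ Fintype.card W) (he : e < m)
    {I : B × W → F} (R : ℕ) : ∀ (q' d : ℕ) (L : List (Fin S × ℕ × Fin S)) (c : List (B × W)),
    CF (fine g) x0 R (tab enc I) → RunL P I L c → L.length ≤ q → L.length ≤ 2 ^ q' →
    (∀ p ∈ L, p.2.1 ≤ 2 ^ d) → d ≤ d0 → q' + d ≤ R → Fintype.card (B × W) ≤ (free c).card + T →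
    a ≤ (comp enc g x0 h e R I (free c)).card →
    ∃ i < R, ∃ L1 L2 A s1 s2, L1.length ≤ q ∧ L2.length ≤ q ∧ (∀ p ∈ L1, p.2.1 ≤ 2 ^ d0) ∧
      (∀ p ∈ L2, p.2.1 ≤ 2 ^ d0) ∧ A.card = a ∧ InD P enc g x0 h e T i L1 L2 A s1 s2 I := by
  classical
  induction R with
  | zero =>
    intro q' d L c hcf hc hq hq' hk hd hR hT hcomp
    have hq0 : q' = 0 := by omega
    have hd1 : d = 0 := by omega
    exfalso
    refine short enc g x0 h e a 0 hX ha hL he I (c := c) ?_ hcomp
    rw [hq0, pow_zero] at hq'
    rw [hd1, pow_zero] at hk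
    match L, hc with
    | [], hc =>
      cases hc
      simp
    | [p], hc =>
      cases hc with
      | cons s t k L c0 c' h1 h2 h3 =>
        cases h3
        have h4 := hk (s, k, t) (by simp)
        simp only at h4
        simp
        omega
    | p :: p' :: L, hc =>
      simp only [List.length_cons] at hq'
      omega
  | succ R ih =>
    intro q' d L c hcf hc hq hq' hk hd hR hT hcomp
    have hcf' := hcf.mono (Nat.le_succ R)
    -- a step into two lists of pieces
    have key : ∀ (q1 d1 : ℕ) (L1 L2 : List (Fin S × ℕ × Fin S)) (c1 c2 : List (B × W)), c = c1 ++ c2 →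
        RunL P I L1 c1 → RunL P I L2 c2 → L1.length ≤ q → L2.length ≤ q → L1.length ≤ 2 ^ q1 → L2.length ≤ 2 ^ q1 →
        (∀ p ∈ L1, p.2.1 ≤ 2 ^ d1) → (∀ p ∈ L2, p.2.1 ≤ 2 ^ d1) → d1 ≤ d0 → q1 + d1 ≤ R →
        ∃ i < R + 1, ∃ L1 L2 A s1 s2, L1.length ≤ q ∧ L2.length ≤ q ∧ (∀ p ∈ L1, p.2.1 ≤ 2 ^ d0) ∧
          (∀ p ∈ L2, p.2.1 ≤ 2 ^ d0) ∧ A.card = a ∧ InD P enc g x0 h e T i L1 L2 A s1 s2 I := by
      intro q1 d1 L1 L2 c1 c2 hcc h1 h2 hq1 hq2 hp1 hp2 hk1 hk2 hd1 hR1
      rw [hcc] at hT hcomp
      have hT1 : Fintype.card (B × W) ≤ (free c1).card + T :=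
        hT.trans (Nat.add_le_add_right (card_le_card (free_left c1 c2)) _)
      have hT2 : Fintype.card (B × W) ≤ (free c2).card + T :=
        hT.trans (Nat.add_le_add_right (card_le_card (free_right c1 c2)) _)
      by_cases hA : a ≤ (comp enc g x0 h e R I (free c1)).card
      · obtain ⟨i, hi, r⟩ := ih q1 d1 L1 c1 hcf' h1 hq1 hp1 hk1 hd1 hR1 hT1 hA
        exact ⟨i, by omega, r⟩
      by_cases hB : a ≤ (comp enc g x0 h e R I (free c2)).card
      · obtain ⟨i, hi, r⟩ := ih q1 d1 L2 c2 hcf' h2 hq2 hp2 hk2 hd1 hR1 hT2 hB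
        exact ⟨i, by omega, r⟩
      obtain ⟨A, s1, s2, hAc, hin⟩ := step enc P g x0 h e T a R hX ha hcf' h1 h2 hT hcomp hA hB
      have hpow : 2 ^ d1 ≤ 2 ^ d0 := Nat.pow_le_pow_right (by norm_num) hd1
      exact ⟨R, Nat.lt_succ_self R, L1, L2, A, s1, s2, hq1, hq2, fun p hp => (hk1 p hp).trans hpow,
        fun p hp => (hk2 p hp).trans hpow, hAc, hin⟩
    rcases q' with _ | q1
    · rw [pow_zero] at hq'
      match L, hc with
      | [], hc =>
        cases hc
        exact (short enc g x0 h e a (R + 1) hX ha hL he I (c := []) (by simp) hcomp).elim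
      | [p], hc =>
        cases hc with
        | cons s t k L c0 c' h1 h2 h3 =>
          cases h3
          have h4 := hk (s, k, t) (by simp)
          simp only at h4
          have hq1 : 1 ≤ q := hq
          rcases d with _ | d1
          · rw [pow_zero] at h4
            exact (short enc g x0 h e a (R + 1) hX ha hL he I (c := c0 ++ []) (by simp; omega) hcomp).elim
          · have h5 : P.Run I s (c0.take (2 ^ d1) ++ c0.drop (2 ^ d1)) t := by
              rw [List.take_append_drop]
              exact h1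
            obtain ⟨p, hp1, hp2⟩ := run_split _ h5
            have hl1 : (c0.take (2 ^ d1)).length ≤ 2 ^ d1 := by
              rw [List.length_take]
              exact min_le_left _ _
            have hl2 : (c0.drop (2 ^ d1)).length ≤ 2 ^ d1 := by
              rw [List.length_drop]
              rw [pow_succ] at h4
              omega
            refine key 0 d1 [(s, (c0.take (2 ^ d1)).length, p)] [(p, (c0.drop (2 ^ d1)).length, t)]
              (c0.take (2 ^ d1) ++ []) (c0.drop (2 ^ d1) ++ []) ?_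
              (RunL.cons _ _ _ _ _ _ hp1 rfl RunL.nil) (RunL.cons _ _ _ _ _ _ hp2 rfl RunL.nil)
              hq1 hq1 (by simp) (by simp) ?_ ?_ (by omega) (by omega)
            · rw [List.append_nil, List.append_nil, List.append_nil, List.take_append_drop]
            · intro p' hp'
              rw [List.mem_singleton] at hp'
              rw [hp']
              exact hl1
            · intro p' hp'
              rw [List.mem_singleton] at hp'
              rw [hp']
              exact hl2
      | p :: p' :: L, hc =>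
        simp only [List.length_cons] at hq'
        omega
    · have h1 : RunL P I (L.take (2 ^ q1) ++ L.drop (2 ^ q1)) c := by
        rw [List.take_append_drop]
        exact hc
      obtain ⟨c1, c2, hcc, h2, h3⟩ := runL_split h1
      have hl1 : (L.take (2 ^ q1)).length ≤ 2 ^ q1 := by
        rw [List.length_take]
        exact min_le_left _ _
      have hl2 : (L.drop (2 ^ q1)).length ≤ 2 ^ q1 := by
        rw [List.length_drop]
        rw [pow_succ] at hq'
        omega
      have hl3 : (L.take (2 ^ q1)).length ≤ q := by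
        rw [List.length_take]
        exact (min_le_right _ _).trans hq
      have hl4 : (L.drop (2 ^ q1)).length ≤ q := by
        rw [List.length_drop]
        omega
      exact key q1 d _ _ c1 c2 hcc h2 h3 hl3 hl4 hl1 hl2 (fun p hp => hk p (List.mem_of_mem_take hp))
        (fun p hp => hk p (List.mem_of_mem_drop hp)) hd (by omega)

/-- BT, R1. -/
theorem exists_inD (P : NProg (B × W) F Z S) (g : Fin D → Equiv.Perm (Fin n)) (x0 : Fin n × Fin m → B)
    (h e T a R : ℕ) (hX : Expands g a) (ha : 1 ≤ a) (hL : h + 1 ≤ Fintype.card W) (he : e < m)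
    {I : B × W → F} (hcf : CF (fine g) x0 R (tab enc I)) {L : List (Fin S × ℕ × Fin S)} {c : List (B × W)}
    (hc : RunL P I L c) {q d q' : ℕ} (hq : L.length ≤ q) (hq' : q ≤ 2 ^ q') (hk : ∀ p ∈ L, p.2.1 ≤ 2 ^ d)
    (hR : q' + d ≤ R) (hT : Fintype.card (B × W) ≤ (free c).card + T)
    (hcomp : a ≤ (comp enc g x0 h e R I (free c)).card) :
    ∃ i < R, ∃ L1 L2 A s1 s2, L1.length ≤ q ∧ L2.length ≤ q ∧ (∀ p ∈ L1, p.2.1 ≤ 2 ^ d) ∧
      (∀ p ∈ L2, p.2.1 ≤ 2 ^ d) ∧ A.card = a ∧ InD P enc g x0 h e T i L1 L2 A s1 s2 I :=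
  exists_inD' enc P g x0 h e T a q d hX ha hL he R q' d L c hcf hc hq (hq.trans hq') hk le_rfl hR hT hcomp

end Pool.Agent.Helper6.BT
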